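import Mathlib
import Pool.Agent.V1154.HK.Geo

open Pool.Agent.V1154.HK
open scoped Pointwise

namespace Pool.Agent.Results.MP_362855_co.TrinomialHStar

/-- A lattice polytope of dimension `d` in `ℝ^d`: the convex hull of finitely many points of `ℤ^d`,
affinely spanning `ℝ^d`. -/
def IsLatticePolytope {d : ℕ} (P : Set (Fin d → ℝ)) : Prop :=
  ∃ V : Finset (Fin d → ℝ), (∀ v ∈ V, ∀ j, ∃ n : ℤ, v j = n) ∧
    P = convexHull ℝ (V : Set (Fin d → ℝ)) ∧ affineSpan ℝ (V : Set (Fin d → ℝ)) = ⊤

/-- The polynomial `1 + a t^k + b t^(2k)`. -/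
noncomputable def tri (a b k : ℕ) : Polynomial ℤ :=
  1 + Polynomial.C (a : ℤ) * Polynomial.X ^ k + Polynomial.C (b : ℤ) * Polynomial.X ^ (2 * k)

theorem tri_coeff (a b k j : ℕ) : (tri a b k).coeff j
    = (if j = 0 then 1 else 0) + (if j = k then (a : ℤ) else 0)
      + (if j = 2 * k then (b : ℤ) else 0) := by
  rw [tri, Polynomial.coeff_add, Polynomial.coeff_add, Polynomial.coeff_one,
    Polynomial.coeff_C_mul_X_pow, Polynomial.coeff_C_mul_X_pow]

theorem tri_eval (a b k : ℕ) : (tri a b k).eval 1 = 1 + a + b := by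
  simp [tri]

/-- The number of lattice points if `k ≥ 2`. -/
theorem ehr_one {d : ℕ} (P : Set (Fin d → ℝ)) (a b k : ℕ) (hk : 2 ≤ k)
    (h : HasHStar P (tri a b k)) : Ehr P 1 = d + 1 := by
  have h1 : PowerSeries.mk (fun m => (Ehr P m : ℤ))
      = (tri a b k : PowerSeries ℤ) * (PowerSeries.mk 1) ^ (d + 1) := by
    rw [← h, mul_assoc, ← mul_pow, mul_comm (1 - PowerSeries.X),
      PowerSeries.mk_one_mul_one_sub_eq_one, one_pow, mul_one]
  have h2 := congrArg (PowerSeries.coeff 1) h1
  rw [PowerSeries.coeff_mk, PowerSeries.coeff_mul, Finset.Nat.antidiagonal_succ] at h2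
  rw [PowerSeries.mk_one_pow_eq_mk_choose_add] at h2
  simp only [Finset.Nat.antidiagonal_zero, Finset.map_singleton, Finset.sum_cons,
    Finset.sum_singleton, PowerSeries.coeff_mk, Polynomial.coeff_coe, tri_coeff] at h2
  have e0 : (0 : ℕ) ≠ k := by omega
  have e1 : (1 : ℕ) ≠ k := by omega
  have e2 : (0 : ℕ) ≠ 2 * k := by omega
  have e3 : (1 : ℕ) ≠ 2 * k := by omega
  simp [e0, e1, e2, e3] at h2
  have h3 : ((Ehr P 1 : ℕ) : ℤ) = ((d + 1 : ℕ) : ℤ) := by
    rw [h2]
    push_cast
    rfl
  exact_mod_cast h3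

/-- With only `d + 1` lattice points the polytope is a simplex. -/
theorem simplex_of_ehr_one {d : ℕ} (P : Set (Fin d → ℝ)) (hP : IsLatticePolytope P)
    (h : Ehr P 1 = d + 1) : ∃ v : Fin (d + 1) → Fin d → ℝ,
      (∀ i j, IsInt (v i j)) ∧ AffineIndependent ℝ v ∧ P = convexHull ℝ (Set.range v) := by
  classical
  obtain ⟨V, hV, hPV, hspan⟩ := hP
  have hfin : Finite {z : Fin d → ℤ // (fun i => (z i : ℝ)) ∈ ((1 : ℕ) : ℝ) • P} := by
    apply Nat.finite_of_card_ne_zero
    have : Nat.card {z : Fin d → ℤ // (fun i => (z i : ℝ)) ∈ ((1 : ℕ) : ℝ) • P} = Ehr P 1 := rfl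
    rw [this, h]
    omega
  -- upper bound
  have hle : V.card ≤ d + 1 := by
    rw [← h, Ehr, ← Nat.card_eq_finsetCard V]
    choose! z hz using hV
    have hmem : ∀ v : V, (fun i => ((z v.1 i : ℤ) : ℝ)) ∈ ((1 : ℕ) : ℝ) • P := by
      intro v
      have h1 : (fun i => ((z v.1 i : ℤ) : ℝ)) = v.1 := by
        funext i
        exact (hz v.1 v.2 i).symm
      rw [h1, Nat.cast_one, one_smul, hPV]
      exact subset_convexHull ℝ _ v.2
    refine Nat.card_le_card_of_injective (fun v : V => (⟨z v.1, hmem v⟩ :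
      {z : Fin d → ℤ // (fun i => (z i : ℝ)) ∈ ((1 : ℕ) : ℝ) • P})) ?_
    intro v w hvw
    have h1 : z v.1 = z w.1 := congrArg Subtype.val hvw
    apply Subtype.ext
    funext i
    rw [hz v.1 v.2 i, hz w.1 w.2 i, h1]
  -- lower bound
  have hne : V.Nonempty := by
    rw [Finset.nonempty_iff_ne_empty]
    rintro rfl
    rw [Finset.coe_empty, AffineSubspace.span_empty] at hspan
    exact (AffineSubspace.bot_ne_top ℝ (Fin d → ℝ) (Fin d → ℝ)) hspan
  have hvs : Module.finrank ℝ (vectorSpan ℝ (V : Set (Fin d → ℝ))) = d := by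
    rw [← direction_affineSpan, hspan, AffineSubspace.direction_top, finrank_top]
    simp
  have hge : d + 1 ≤ V.card := by
    have hpos := Finset.card_pos.2 hne
    have := finrank_vectorSpan_image_finset_le ℝ (fun x : Fin d → ℝ => x) V (n := V.card - 1)
      (by omega)
    rw [Finset.image_id', hvs] at this
    omega
  have hcard : V.card = d + 1 := le_antisymm hle hge
  have e : Fin (d + 1) ≃ V := (Fintype.equivFinOfCardEq (by simpa using hcard)).symm
  have hrange : Set.range (fun i => (e i).1) = (V : Set (Fin d → ℝ)) := by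
    ext x
    constructor
    · rintro ⟨i, rfl⟩
      exact (e i).2
    · intro hx
      exact ⟨e.symm ⟨x, hx⟩, by simp⟩
  refine ⟨fun i => (e i).1, fun i j => hV _ (e i).2 j, ?_, by rw [hrange, hPV]⟩
  rw [affineIndependent_iff_finrank_vectorSpan_eq ℝ _ (Fintype.card_fin (d + 1)), hrange]
  exact hvs

/-- **Main theorem.** -/
theorem result (d : ℕ) (P : Set (Fin d → ℝ)) (hP : IsLatticePolytope P) (k a b : ℕ)
    (hk : 2 ≤ k) (hb : 2 ≤ b) (h : HasHStar P (tri a b k)) :
    a + b + 1 ≤ (4 * b + 4) * k := by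
  classical
  obtain ⟨v, hv, hind, rfl⟩ := simplex_of_ehr_one P hP (ehr_one P a b k hk h)
  have hfinQ := Qg_finite v hv hind
  have : Fintype (Qg v) := Fintype.ofFinite _
  have hpoly := hstar_eq v hv hind _ h
  have hcoeff : ∀ j : ℕ, (((Finset.univ.filter fun q : Qg v => hN v q = j).card : ℕ) : ℤ)
      = (if j = 0 then 1 else 0) + (if j = k then (a : ℤ) else 0)
      + (if j = 2 * k then (b : ℤ) else 0) := by
    intro j
    rw [← tri_coeff, hpoly, Polynomial.finsetSum_coeff]
    simp only [Polynomial.coeff_X_pow]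
    rw [Finset.sum_boole]
    simp only [eq_comm]
  have hcardQ : Fintype.card (Qg v) = 1 + a + b := by
    have h1 := tri_eval a b k
    rw [hpoly, Polynomial.eval_finsetSum] at h1
    simp at h1
    exact_mod_cast h1
  by_contra hcon
  push Not at hcon
  have hk0 : (0 : ℝ) < k := by exact_mod_cast (by omega : 0 < k)
  refine contradiction (G := Qg v) (ι := Fin (d + 1)) (c := cc v) (k := k) (b := b)
    { toBox := box v, hk := hk, hb := hb, hht := ?_, hcb := ?_, hG := ?_ }
  · intro x hx
    have h1 := hcoeff (hN v x)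
    have h2 : 0 < (Finset.univ.filter fun q : Qg v => hN v q = hN v x).card :=
      Finset.card_pos.2 ⟨x, by simp⟩
    have h3 : hN v x ≠ 0 := by
      intro h0
      apply hx
      have h4 := ht_eq v hv x
      rw [h0, Nat.cast_zero] at h4
      refine (box v).inj x fun i => ?_
      exact (Finset.sum_eq_zero_iff_of_nonneg (fun i _ => (box v).nonneg i x)).1 h4 i
        (Finset.mem_univ i)
    rw [ht_eq v hv]
    by_contra hcon2
    push Not at hcon2
    have h4 : hN v x ≠ k := by
      intro h5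
      exact hcon2.1 (by rw [h5])
    have h5 : hN v x ≠ 2 * k := by
      intro h6
      exact hcon2.2 (by rw [h6]; push_cast; rfl)
    rw [if_neg h3, if_neg h4, if_neg h5] at h1
    simp only [add_zero] at h1
    have h6 : (Finset.univ.filter fun q : Qg v => hN v q = hN v x).card = 0 := by exact_mod_cast h1
    omega
  · have h1 := hcoeff (2 * k)
    have e1 : 2 * k ≠ 0 := by omega
    have e2 : 2 * k ≠ k := by omega
    rw [if_neg e1, if_neg e2, if_pos rfl, zero_add, zero_add] at h1
    have h2 : (Finset.univ.filter fun q : Qg v => hN v q = 2 * k).card = b := by exact_mod_cast h1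
    rw [← h2, Nat.card_eq_fintype_card, Fintype.card_subtype]
    congr 1
    ext x
    simp only [Finset.mem_filter, Finset.mem_univ, true_and]
    rw [ht_eq v hv]
    constructor
    · intro h3
      exact_mod_cast h3
    · intro h3
      rw [h3]
      push_cast
      rfl
  · rw [hcardQ]
    have : 4 * k * (b + 1) = (4 * b + 4) * k := by ring
    omega

end Pool.Agent.Results.MP_362855_co.TrinomialHStar
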